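import Pool.Agent.Work.MP_c93117_an.Bd.B04

/-! Almost positive projections. -/

open Set Topology

namespace C93117.W

variable {K : Type} [MetricSpace K] [CompactSpace K]

/-- Almost positive projections from the small norm theorem. -/
theorem almost_pos {ε : ℝ} (hS : Small ε) (hε0 : 0 < ε) (hε1 : ε ≤ 1 / 100) {M δ₀ : ℝ}
    (hM : 1 ≤ M) (hδ0 : 0 ≤ δ₀) (hδ : 768 * 4 * M ^ 4 * δ₀ ≤ ε ^ 2)
    (p : Submodule ℝ C(K, ℝ)) (P : C(K, ℝ) →L[ℝ] C(K, ℝ)) (h1 : ∀ f, P f ∈ p)
    (h2 : ∀ f ∈ p, P f = f) (hPM : ‖P‖ ≤ M)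
    (hpos : ∀ f : C(K, ℝ), (∀ s, 0 ≤ f s) → (∀ s, f s ≤ 1) → ∀ t, -δ₀ ≤ P f t)
    (hc : Countable K ∨ TopologicalSpace.SeparableSpace (StrongDual ℝ p)) :
    ∃ (L : Type) (_ : MetricSpace L) (_ : CompactSpace L),
      Countable L ∧ Nonempty (p ≃L[ℝ] C(L, ℝ)) := by
  -- positivity up to `δ₀ * c`
  have hp1 : ∀ (c : ℝ) (f : C(K, ℝ)), 0 ≤ c → (∀ s, 0 ≤ f s) → (∀ s, f s ≤ c) → ∀ t,
      -(δ₀ * c) ≤ P f t := by
    intro c f hc0 hf0 hfc t
    rcases hc0.eq_or_lt with rfl | hc0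
    · have : f = 0 := by
        ext s
        exact le_antisymm (hfc s) (hf0 s)
      rw [this]; simp
    · have := hpos (c⁻¹ • f) (fun s => by
        rw [ContinuousMap.smul_apply, smul_eq_mul]
        have := hf0 s
        positivity) (fun s => by
        rw [ContinuousMap.smul_apply, smul_eq_mul, inv_mul_le_iff₀ hc0, mul_one]
        exact hfc s) t
      rw [map_smul, ContinuousMap.smul_apply, smul_eq_mul, le_inv_mul_iff₀ hc0] at this
      linarith
  have hp2 : ∀ (c : ℝ) (f g : C(K, ℝ)), 0 ≤ c → (∀ s, |f s| ≤ g s) → (∀ s, g s ≤ c) → ∀ t,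
      |P f t| ≤ P g t + 2 * δ₀ * c := by
    intro c f g hc0 hfg hg t
    have e1 := hp1 (2 * c) (g - f) (by positivity) (fun s => by
      have := (abs_le.1 (hfg s)).2
      rw [ContinuousMap.sub_apply]; linarith) (fun s => by
      have := (abs_le.1 (hfg s)).1
      have := hg s
      rw [ContinuousMap.sub_apply]; linarith) t
    have e2 := hp1 (2 * c) (g + f) (by positivity) (fun s => by
      have := (abs_le.1 (hfg s)).1
      rw [ContinuousMap.add_apply]; linarith) (fun s => by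
      have := (abs_le.1 (hfg s)).2
      have := hg s
      rw [ContinuousMap.add_apply]; linarith) t
    rw [map_sub, ContinuousMap.sub_apply] at e1
    rw [map_add, ContinuousMap.add_apply] at e2
    rw [abs_le]
    constructor <;> linarith
  have hM0 : 0 < M := by linarith
  have hP1 : ∀ t, |P 1 t| ≤ M := fun t => by
    have e1 : ‖P 1‖ ≤ M * 1 := by
      refine (P.le_of_opNorm_le hPM 1).trans ?_
      gcongr
      rw [norm_le_iff' zero_le_one]
      intro s
      simp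
    have e2 : |P 1 t| ≤ ‖P 1‖ := (P 1).norm_coe_le_norm t
    linarith
  set h : C(K, ℝ) := P 1 + ContinuousMap.const K δ₀ with hh
  have hht : ∀ t, h t = P 1 t + δ₀ := fun t => rfl
  have hδ1 : δ₀ ≤ 1 := by
    have e1 : (1 : ℝ) ≤ M ^ 4 := one_le_pow₀ hM
    have e2 : ε ^ 2 ≤ 1 := pow_le_one₀ hε0.le (by linarith)
    nlinarith
  have h0 : ∀ t, 0 ≤ h t := fun t => by
    have := hp1 1 1 zero_le_one (fun s => by simp) (fun s => by simp) t
    rw [hht]; linarith
  have hle : ∀ t, h t ≤ M + δ₀ := fun t => by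
    have := (abs_le.1 (hP1 t)).2
    rw [hht]; linarith
  have hA : ∀ t, h t ≤ 2 * M := fun t => by
    have := hle t
    linarith
  have hconst : ∀ t, P (ContinuousMap.const K δ₀) t = δ₀ * P 1 t := fun t => by
    have : ContinuousMap.const K δ₀ = δ₀ • (1 : C(K, ℝ)) := by
      ext s; simp
    rw [this, map_smul, ContinuousMap.smul_apply, smul_eq_mul]
  -- parameters
  set η : ℝ := ε / (16 * (2 * M) ^ 3) with hη
  set δ : ℝ := ε * η / 4 with hδd
  have hη0 : 0 < η := by positivity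
  have hδ2 : 6 * M * δ₀ ≤ δ := by
    rw [hδd, hη]
    have e1 : ε * (ε / (16 * (2 * M) ^ 3)) / 4 = ε ^ 2 / (512 * M ^ 3) := by
      field_simp
      norm_num
    rw [e1, le_div_iff₀ (by positivity)]
    calc 6 * M * δ₀ * (512 * M ^ 3) = 768 * 4 * M ^ 4 * δ₀ := by ring
      _ ≤ ε ^ 2 := hδ
  have D : WData p P h (2 * M) η δ ε := by
    refine ⟨h1, h2, by linarith, h0, hA, hε0, hε1, hη0, by positivity, ?_, ?_, ?_, ?_⟩
    · rw [hη]
      apply le_of_eq
      field_simp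
    · rw [hδd]
      apply le_of_eq
      ring
    · intro f hf t
      have e1 := hp2 (2 * M) f h (by positivity) hf hA t
      have e2 : P h t = P 1 t + δ₀ * P 1 t := by
        rw [hh, map_add, ContinuousMap.add_apply, hconst, h2 _ (h1 1)]
      have e3 := (abs_le.1 (hP1 t)).2
      have e4 : δ₀ * P 1 t ≤ δ₀ * M := by gcongr
      rw [e2] at e1
      rw [hht]
      nlinarith
    · intro f hf t
      have e1 := hp2 1 f 1 zero_le_one hf (fun s => by simp) t
      have e2 := h0 t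
      have e3 : h t ≤ 2 * M * h t := by nlinarith
      have e4 : δ₀ ≤ δ := by nlinarith
      have e5 := hht t
      linarith
  exact weighted hS D hc

/-- The same with `M = ‖P‖`. -/
theorem almost_pos_norm {ε : ℝ} (hS : Small ε) (hε0 : 0 < ε) (hε1 : ε ≤ 1 / 100)
    (p : Submodule ℝ C(K, ℝ)) (P : C(K, ℝ) →L[ℝ] C(K, ℝ)) (h1 : ∀ f, P f ∈ p)
    (h2 : ∀ f ∈ p, P f = f)
    (hpos : ∀ f : C(K, ℝ), (∀ s, 0 ≤ f s) → (∀ s, f s ≤ 1) → ∀ t,
      -(ε ^ 2 / (3072 * ‖P‖ ^ 4)) ≤ P f t)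
    (hc : Countable K ∨ TopologicalSpace.SeparableSpace (StrongDual ℝ p)) :
    ∃ (L : Type) (_ : MetricSpace L) (_ : CompactSpace L),
      Countable L ∧ Nonempty (p ≃L[ℝ] C(L, ℝ)) := by
  by_cases hp : ∀ x ∈ p, x = 0
  · exact trivial_case hp
  · push Not at hp
    obtain ⟨x, hx, hx0⟩ := hp
    have hn : 0 < ‖x‖ := norm_pos_iff.mpr hx0
    have hM : 1 ≤ ‖P‖ := by
      have := P.le_opNorm x
      rw [h2 x hx] at this
      exact le_of_mul_le_mul_right (by linarith) hn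
    refine almost_pos hS hε0 hε1 hM (δ₀ := ε ^ 2 / (3072 * ‖P‖ ^ 4)) (by positivity) ?_ p P h1 h2
      le_rfl hpos hc
    have : (0:ℝ) < ‖P‖ ^ 4 := by positivity
    apply le_of_eq
    field_simp
    norm_num

end C93117.W
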