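import Mathlib

/-! Abstract lemmas for the weighted theorem. -/

open Set Topology

namespace C93117.W

section
variable {X Z : Type*} [NormedAddCommGroup X] [NormedSpace ℝ X] [NormedAddCommGroup Z]
  [NormedSpace ℝ Z]

lemma neumann [CompleteSpace X] (T : X →L[ℝ] X) {κ : ℝ} (hκ0 : 0 ≤ κ) (hκ : κ < 1)
    (h : ∀ x, ‖T x - x‖ ≤ κ * ‖x‖) :
    ∃ S : X →L[ℝ] X, (∀ x, S (T x) = x) ∧ ∀ x, T (S x) = x := by
  have h1 : ‖1 - T‖ < 1 := by
    refine lt_of_le_of_lt (ContinuousLinearMap.opNorm_le_bound _ hκ0 fun x => ?_) hκ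
    have := h x
    rw [norm_sub_rev] at this
    exact this
  set u := Units.oneSub (1 - T) h1 with hu
  have hu' : (u : X →L[ℝ] X) = T := by
    rw [hu, Units.val_oneSub]; abel
  refine ⟨(u⁻¹ : (X →L[ℝ] X)ˣ), fun x => ?_, fun x => ?_⟩
  · have : ((u⁻¹ : (X →L[ℝ] X)ˣ) : X →L[ℝ] X) * (u : X →L[ℝ] X) = 1 := u.inv_mul
    have h2 := congrArg (fun f : X →L[ℝ] X => f x) this
    simp only [hu'] at h2
    exact h2
  · have : (u : X →L[ℝ] X) * ((u⁻¹ : (X →L[ℝ] X)ˣ) : X →L[ℝ] X) = 1 := u.mul_inv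
    have h2 := congrArg (fun f : X →L[ℝ] X => f x) this
    rw [hu'] at h2
    exact h2

/-- an almost projection onto `range J` can be corrected -/
lemma perturb [CompleteSpace X] (J : X →L[ℝ] Z) (A : Z →L[ℝ] X) {κ α : ℝ} (hκ0 : 0 ≤ κ)
    (hκ : κ < 1) (hα : 0 ≤ α) (h1 : ∀ x, ‖A (J x) - x‖ ≤ κ * ‖x‖)
    (h2 : ∀ x, ‖J (A (J x)) - J x‖ ≤ κ * ‖J x‖) (h3 : ∀ z, ‖J (A z)‖ ≤ α * ‖z‖) :
    ∃ P : Z →L[ℝ] Z, (∀ z, ∃ x, P z = J x) ∧ (∀ x, P (J x) = J x) ∧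
      ∀ z, ‖P z‖ ≤ α / (1 - κ) * ‖z‖ := by
  obtain ⟨S, hS1, hS2⟩ := neumann (A.comp J) hκ0 hκ h1
  refine ⟨J.comp (S.comp A), fun z => ⟨S (A z), rfl⟩, fun x => ?_, fun z => ?_⟩
  · change J (S (A (J x))) = J x
    have := hS1 x
    change S (A (J x)) = x at this
    rw [this]
  · change ‖J (S (A z))‖ ≤ _
    set y := S (A z) with hy
    have e1 : A (J y) = A z := hS2 (A z)
    have e2 := h2 y
    rw [e1] at e2
    have e3 := h3 z
    have e4 : ‖J y‖ ≤ ‖J (A z)‖ + ‖J (A z) - J y‖ := by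
      have := norm_sub_le (J (A z)) (J (A z) - J y)
      simpa using this
    have hk : 0 < 1 - κ := by linarith
    rw [div_mul_eq_mul_div, le_div_iff₀ hk]
    nlinarith

/-- bounded below maps are isomorphisms onto their range -/
lemma equiv_range (J : X →L[ℝ] Z) {C : ℝ} (hb : ∀ x, ‖x‖ ≤ C * ‖J x‖) :
    Nonempty (X ≃L[ℝ] LinearMap.range (J : X →ₗ[ℝ] Z)) := by
  have hinj : Function.Injective (J : X →ₗ[ℝ] Z) := by
    intro x y hxy
    have h1 : J (x - y) = 0 := by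
      rw [map_sub]; exact sub_eq_zero.2 hxy
    have h2 := hb (x - y)
    rw [h1, norm_zero, mul_zero] at h2
    exact sub_eq_zero.1 (norm_le_zero_iff.1 h2)
  refine ⟨(LinearEquiv.ofInjective (J : X →ₗ[ℝ] Z) hinj).toContinuousLinearEquivOfBounds
    ‖J‖ C (fun x => ?_) (fun y => ?_)⟩
  · exact J.le_opNorm x
  · obtain ⟨x, rfl⟩ := (LinearEquiv.ofInjective (J : X →ₗ[ℝ] Z) hinj).surjective y
    rw [LinearEquiv.symm_apply_apply]
    exact hb x

lemma sepDual_congr (e : X ≃L[ℝ] Z) (h : TopologicalSpace.SeparableSpace (StrongDual ℝ X)) :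
    TopologicalSpace.SeparableSpace (StrongDual ℝ Z) := by
  set F : (X →L[ℝ] ℝ) →L[ℝ] (Z →L[ℝ] ℝ) :=
    (ContinuousLinearMap.compL ℝ Z X ℝ).flip (e.symm : Z →L[ℝ] X) with hF
  have hs : Function.Surjective F := by
    intro ψ
    refine ⟨ψ.comp (e : X →L[ℝ] Z), ?_⟩
    ext z
    simp [hF]
  exact hs.denseRange.separableSpace F.continuous

end

end C93117.W
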